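import Pool.Agent.H41.Lib.H326R2.Pi.Stmts
/-!
Task T8 of the project of helper326 (irrationality measure of `π`): the 2-adic statement
(helper726).
-/

open Polynomial

namespace Pool.Agent.H726R2.PiA

open Pool.Agent.H326R2.Pi

/-! ### Homogenisation -/

section Hom

variable {R : Type*} [CommRing R] (a y : R[X])

theorem Hom_sub (d : ℕ) (F G : R[X]) : Hom a y d (F - G) = Hom a y d F - Hom a y d G := by
  unfold Hom
  rw [← Finset.sum_sub_distrib]
  refine Finset.sum_congr rfl fun j _ => ?_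
  rw [coeff_sub, map_sub]; ring

theorem Hom_C_mul (d : ℕ) (c : R) (F : R[X]) : Hom a y d (C c * F) = C c * Hom a y d F := by
  unfold Hom
  rw [Finset.mul_sum]
  refine Finset.sum_congr rfl fun j _ => ?_
  rw [coeff_C_mul, map_mul]; ring

theorem Hom_X_mul (d : ℕ) (F : R[X]) : Hom a y (d + 1) (X * F) = a * Hom a y d F := by
  unfold Hom
  rw [Finset.sum_range_succ']
  simp only [coeff_X_mul, mul_coeff_zero, coeff_X_zero, zero_mul, map_zero, add_zero]
  rw [Finset.mul_sum]
  refine Finset.sum_congr rfl fun j _ => ?_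
  rw [Nat.add_sub_add_right]; ring

theorem Hom_succ (d : ℕ) (F : R[X]) (hF : F.natDegree ≤ d) :
    Hom a y (d + 1) F = y * Hom a y d F := by
  unfold Hom
  rw [Finset.sum_range_succ, coeff_eq_zero_of_natDegree_lt (by omega), map_zero, zero_mul, zero_mul,
    add_zero, Finset.mul_sum]
  refine Finset.sum_congr rfl fun j hj => ?_
  have hj' : j ≤ d := by
    have := Finset.mem_range.1 hj; omega
  rw [show d + 1 - j = (d - j) + 1 by omega, pow_succ]; ring

theorem Hom_lin (d : ℕ) (c : R) (F : R[X]) (hF : F.natDegree ≤ d) :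
    Hom a y (d + 1) ((X - C c) * F) = (a - C c * y) * Hom a y d F := by
  rw [sub_mul, Hom_sub, Hom_X_mul, Hom_C_mul, Hom_succ a y d F hF]; ring

theorem natDegree_lin_pow (d N : ℕ) (c : R) (F : R[X]) (hF : F.natDegree ≤ d) :
    ((X - C c) ^ N * F).natDegree ≤ d + N := by
  refine natDegree_mul_le.trans ?_
  have h1 : ((X - C c) ^ N).natDegree ≤ N := by
    refine natDegree_pow_le.trans ?_
    have : (X - C c).natDegree ≤ 1 := natDegree_X_sub_C_le c
    nlinarith
  omega

theorem Hom_lin_pow (d N : ℕ) (c : R) (F : R[X]) (hF : F.natDegree ≤ d) :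
    Hom a y (d + N) ((X - C c) ^ N * F) = (a - C c * y) ^ N * Hom a y d F := by
  induction N with
  | zero => simp
  | succ N ih =>
    rw [← add_assoc, pow_succ', mul_assoc, Hom_lin a y (d + N) c _ (natDegree_lin_pow d N c F hF),
      ih, pow_succ']
    ring

theorem natDegree_quad_pow (d N : ℕ) (F : R[X]) (hF : F.natDegree ≤ d) :
    ((X ^ 2 - 8) ^ N * F).natDegree ≤ d + 2 * N := by
  refine natDegree_mul_le.trans ?_
  have h1 : ((X ^ 2 - 8 : R[X]) ^ N).natDegree ≤ N * 2 := by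
    refine natDegree_pow_le.trans ?_
    have : (X ^ 2 - 8 : R[X]).natDegree ≤ 2 := by
      have : (X ^ 2 - 8 : R[X]) = X ^ 2 - C 8 := by simp only [map_ofNat]
      rw [this]
      compute_degree
    nlinarith
  omega

theorem Hom_quad (d : ℕ) (F : R[X]) (hF : F.natDegree ≤ d) :
    Hom a y (d + 2) ((X ^ 2 - 8) * F) = (a ^ 2 - 8 * y ^ 2) * Hom a y d F := by
  have h1 : (X ^ 2 - 8 : R[X]) * F = X * (X * F) - C 8 * F := by
    simp only [map_ofNat]; ring
  have h2 : Hom a y (d + 2) F = y * (y * Hom a y d F) := by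
    rw [show d + 2 = (d + 1) + 1 by ring, Hom_succ a y (d + 1) F (by omega), Hom_succ a y d F hF]
  rw [h1, Hom_sub, Hom_C_mul, h2, show d + 2 = (d + 1) + 1 by ring, Hom_X_mul, Hom_X_mul]
  simp only [map_ofNat]
  ring

theorem Hom_quad_pow (d N : ℕ) (F : R[X]) (hF : F.natDegree ≤ d) :
    Hom a y (d + 2 * N) ((X ^ 2 - 8) ^ N * F) = (a ^ 2 - 8 * y ^ 2) ^ N * Hom a y d F := by
  induction N with
  | zero => simp
  | succ N ih =>
    rw [show d + 2 * (N + 1) = (d + 2 * N) + 2 by ring, pow_succ', mul_assoc,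
      Hom_quad a y (d + 2 * N) _ (natDegree_quad_pow d N F hF), ih, pow_succ']
    ring

theorem Hom_zero_one : Hom a y 0 1 = 1 := by
  simp [Hom]

theorem Hom_one (d : ℕ) : Hom a y d 1 = y ^ d := by
  induction d with
  | zero => rw [Hom_zero_one, pow_zero]
  | succ d ih => rw [Hom_succ a y d 1 (by simp), ih, pow_succ']

theorem Hom_PP (n : ℕ) : Hom a y (8 * n) (PP R n) = (a - 2 * y) ^ (3 * n) * (a - 3 * y) ^ (5 * n) := by
  have h2 : (X - 2 : R[X]) = X - C 2 := by simp only [map_ofNat]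
  have h3 : (X - 3 : R[X]) = X - C 3 := by simp only [map_ofNat]
  have e2 : (a - 2 * y : R[X]) = a - C 2 * y := by simp only [map_ofNat]
  have e3 : (a - 3 * y : R[X]) = a - C 3 * y := by simp only [map_ofNat]
  have h4 : ((X - C 3 : R[X]) ^ (5 * n)).natDegree ≤ 5 * n := by
    have := natDegree_lin_pow 0 (5 * n) (3 : R) 1 (by simp)
    rwa [mul_one, zero_add] at this
  have h5 : Hom a y (5 * n) ((X - C 3) ^ (5 * n)) = (a - C 3 * y) ^ (5 * n) := by
    have := Hom_lin_pow a y 0 (5 * n) 3 1 (by simp)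
    rwa [mul_one, zero_add, Hom_zero_one, mul_one] at this
  rw [PP, h2, h3, e2, e3, show 8 * n = 5 * n + 3 * n by ring, Hom_lin_pow a y _ _ _ _ h4, h5]

theorem Hom_QQ (n : ℕ) : Hom a y (8 * n) ((X ^ 2 - 8) ^ (2 * n)) =
    (a ^ 2 - 8 * y ^ 2) ^ (2 * n) * y ^ (4 * n) := by
  have := Hom_quad_pow a y (4 * n) (2 * n) 1 (by simp)
  rw [mul_one, Hom_one, show 4 * n + 2 * (2 * n) = 8 * n by ring] at this
  exact this

theorem natDegree_Hom (d : ℕ) (F : R[X]) (ha : a.natDegree ≤ 2) (hy : y.natDegree ≤ 1) :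
    (Hom a y d F).natDegree ≤ 2 * d := by
  unfold Hom
  refine natDegree_sum_le_of_forall_le _ _ fun j hj => ?_
  have hj' : j ≤ d := by
    have := Finset.mem_range.1 hj; omega
  have h1 : (a ^ j).natDegree ≤ j * 2 := natDegree_pow_le.trans (Nat.mul_le_mul_left _ ha)
  have h2 : (y ^ (d - j)).natDegree ≤ (d - j) * 1 := natDegree_pow_le.trans (Nat.mul_le_mul_left _ hy)
  have h3 : (C (F.coeff j) * a ^ j * y ^ (d - j)).natDegree ≤ 0 + j * 2 + (d - j) * 1 := by
    refine natDegree_mul_le.trans (Nat.add_le_add (natDegree_mul_le.trans (Nat.add_le_add ?_ h1)) h2)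
    simp
  omega

theorem LL_map {S : Type*} [CommRing S] (f : R →+* S) (m : ℕ) (F : R[X]) :
    (LL m F).map f = LL m (F.map f) := by
  unfold LL
  simp only [Polynomial.map_sub, Polynomial.map_mul, Polynomial.map_pow, Polynomial.map_X,
    Polynomial.map_ofNat, Polynomial.map_natCast, Polynomial.map_one, derivative_map]

theorem LL_C_mul (m : ℕ) (c : R) (F : R[X]) : LL m (C c * F) = C c * LL m F := by
  unfold LL
  rw [derivative_C_mul]; ring

theorem PP_map {S : Type*} [CommRing S] (f : R →+* S) (n : ℕ) : (PP R n).map f = PP S n := by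
  unfold PP
  simp only [Polynomial.map_sub, Polynomial.map_mul, Polynomial.map_pow, Polynomial.map_X,
    Polynomial.map_ofNat]

end Hom

/-- the key identity -/
theorem core {S : Type*} [CommRing S] (y y' D D' a H H' I W : S) (l : ℕ)
    (h1 : (-2 * I * D') * y - (-2 * I * D) * y' = a * y')
    (E : (-2 * I * D) * (y * H' - (2 * l + 3 : ℕ) * y' * H) = y' * (W + (l + 1) * a * H)) :
    (-2 * I * H') * (y ^ (l + 2) * D ^ (l + 1)) -
      (-2 * I * H) * ((l + 2) * y ^ (l + 1) * y' * D ^ (l + 1) +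
        y ^ (l + 2) * ((l + 1) * D ^ l * D')) = y ^ (l + 1) * D ^ l * y' * W := by
  push_cast at E
  linear_combination (y ^ (l + 1) * D ^ l) * E - (y ^ (l + 1) * D ^ l) * ((l : S) + 1) * H * h1

/-! ### The disc -/

/-- the imaginary unit -/
def ig : GaussianInt := ⟨0, 1⟩

theorem ig_sq : ig * ig = -1 := by
  ext <;> simp [ig]

/-- the imaginary unit as a constant polynomial -/
noncomputable def Ig : GaussianInt[X] := C ig

theorem Ig_sq : Ig * Ig = -1 := by
  unfold Ig
  rw [← C_mul, ig_sq]; simp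

theorem pg_eq : pg = 1 + ig := by
  ext <;> simp [ig, pg]

noncomputable def py : GaussianInt[X] := 1 - (1 - Ig) * X
noncomputable def pz : GaussianInt[X] := X * (1 - X)
noncomputable def pa : GaussianInt[X] := 2 * py + 2 * (1 + Ig) * pz
noncomputable def pD : GaussianInt[X] := 1 - 2 * X + (1 - Ig) * X ^ 2
noncomputable def pb : GaussianInt[X] := -2 * Ig * pD

theorem pab : pa ^ 2 - 8 * py ^ 2 = pb ^ 2 := by
  unfold pa pb pD pz py
  linear_combination ((-4) + 16 * X + (-16) * X ^ 2 + 8 * Ig * X ^ 2 + (-16) * Ig * X ^ 3 +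
    4 * X ^ 4 + 8 * Ig * X ^ 4 + (-4) * Ig ^ 2 * X ^ 4) * Ig_sq

theorem dIg : derivative Ig = 0 := by unfold Ig; exact derivative_C

theorem d2 : derivative (2 : GaussianInt[X]) = 0 := by
  have := derivative_C (a := (2 : GaussianInt))
  simpa only [map_ofNat] using this

theorem dpy : derivative py = -(1 - Ig) := by
  unfold py
  rw [derivative_sub, derivative_one, derivative_mul, derivative_sub, derivative_one, dIg,
    derivative_X]
  ring

theorem dpz : derivative pz = 1 - 2 * X := by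
  unfold pz
  rw [derivative_mul, derivative_sub, derivative_one, derivative_X]
  ring

theorem dpa : derivative pa = 2 * (-(1 - Ig)) + 2 * (1 + Ig) * (1 - 2 * X) := by
  unfold pa
  rw [derivative_add, derivative_mul, derivative_mul, derivative_mul, derivative_add,
    derivative_one, dIg, d2, dpy, dpz]
  ring

theorem dpD : derivative pD = -2 + 2 * (1 - Ig) * X := by
  unfold pD
  rw [derivative_add, derivative_sub, derivative_mul, derivative_mul, derivative_sub,
    derivative_one, derivative_X_pow, derivative_X, dIg, d2]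
  simp only [Nat.cast_ofNat, map_ofNat]
  ring

theorem pd1 : derivative pa * py - pa * derivative py = pb * derivative py := by
  rw [dpa, dpy]
  unfold pa pb pD pz py
  linear_combination (2 + (-4) * X + 2 * X ^ 2 + (-2) * Ig * X ^ 2) * Ig_sq

theorem pd2 : (-2 * Ig * derivative pD) * py - (-2 * Ig * pD) * derivative py =
    pa * derivative py := by
  rw [dpD, dpy]
  unfold pa pD pz py
  linear_combination (2 + (-2) * X ^ 2 + 2 * Ig * X ^ 2) * Ig_sq

theorem pcube : (pa - 2 * py) ^ 3 = 16 * ((Ig - 1) * pz ^ 3) := by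
  unfold pa pz py
  linear_combination (24 * X ^ 3 + 8 * Ig * X ^ 3 + (-72) * X ^ 4 + (-24) * Ig * X ^ 4 +
    72 * X ^ 5 + 24 * Ig * X ^ 5 + (-24) * X ^ 6 + (-8) * Ig * X ^ 6) * Ig_sq

theorem pb4 : pb ^ 4 = 16 * pD ^ 4 := by
  have : pb ^ 4 = 16 * (Ig * Ig) ^ 2 * pD ^ 4 := by unfold pb; ring
  rw [this, Ig_sq]; ring

/-- divisibility of the right hand side -/
theorem W_dvd (n : ℕ) (k : ℤ) (L : ℕ) : ∃ Z : GaussianInt[X],
    Hom pa py (8 * n) (C ((64 ^ n * L : ℕ) : GaussianInt) *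
      (PP GaussianInt n - C (k : GaussianInt) * (X ^ 2 - 8) ^ (2 * n))) =
    C ((1024 ^ n * L : ℕ) : GaussianInt) * Z := by
  refine ⟨((Ig - 1) * pz ^ 3) ^ n * (pa - 3 * py) ^ (5 * n) -
    C (k : GaussianInt) * ((pD ^ 4) ^ n * py ^ (4 * n)), ?_⟩
  rw [Hom_C_mul, Hom_sub, Hom_C_mul, Hom_PP, Hom_QQ, pab, ← pow_mul,
    show 2 * (2 * n) = 4 * n by ring, pow_mul (pa - 2 * py) 3 n, pcube, pow_mul pb 4 n, pb4,
    mul_pow (16 : GaussianInt[X]) ((Ig - 1) * pz ^ 3) n,
    mul_pow (16 : GaussianInt[X]) (pD ^ 4) n]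
  have e : C ((1024 ^ n * L : ℕ) : GaussianInt) = C ((64 ^ n * L : ℕ) : GaussianInt) * 16 ^ n := by
    have : (16 : GaussianInt[X]) = C 16 := by simp only [map_ofNat]
    rw [this, ← C_pow, ← C_mul]
    congr 1
    push_cast
    rw [show (1024 : GaussianInt) = 64 * 16 by norm_num, mul_pow]
    ring
  rw [e]
  ring

/-! ### Values at the end points -/

theorem eval_Hom {R : Type*} [CommRing R] (a y : R[X]) (d : ℕ) (F : R[X]) (t : R) :
    (Hom a y d F).eval t = ∑ j ∈ Finset.range (d + 1), F.coeff j * (a.eval t) ^ j *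
      (y.eval t) ^ (d - j) := by
  unfold Hom
  rw [eval_finsetSum]
  refine Finset.sum_congr rfl fun j _ => ?_
  rw [eval_mul, eval_mul, eval_pow, eval_pow, eval_C]

theorem Hom_at_zero (d : ℕ) (F : GaussianInt[X]) (hF : F.natDegree ≤ d) :
    (Hom pa py d F).eval 0 = F.eval 2 := by
  rw [eval_Hom, eval_eq_sum_range' (show F.natDegree < d + 1 by omega) 2]
  refine Finset.sum_congr rfl fun j _ => ?_
  have h1 : pa.eval 0 = 2 := by simp [pa, py, pz]
  have h2 : py.eval 0 = 1 := by simp [py]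
  rw [h1, h2, one_pow, mul_one]

theorem Ig_at (t : GaussianInt) : Ig.eval t = ig := by unfold Ig; exact eval_C

theorem py_one : py.eval 1 = ig := by
  simp [py, Ig_at]

theorem pa_one : pa.eval 1 = 2 * ig := by
  simp [pa, pz, py_one]

theorem Hom_at_one (d : ℕ) (F : GaussianInt[X]) (hF : F.natDegree ≤ d) :
    (Hom pa py d F).eval 1 = ig ^ d * F.eval 2 := by
  rw [eval_Hom, eval_eq_sum_range' (show F.natDegree < d + 1 by omega) 2, Finset.mul_sum]
  refine Finset.sum_congr rfl fun j hj => ?_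
  have hj' : j ≤ d := by
    have := Finset.mem_range.1 hj; omega
  rw [pa_one, py_one, mul_pow]
  have : ig ^ d = ig ^ j * ig ^ (d - j) := by rw [← pow_add]; congr 1; omega
  rw [this]; ring

theorem pD_one : pD.eval 1 = -ig := by
  simp [pD, Ig_at]
  ring

/-- `V = 1` modulo `pg` -/
theorem py_mod : C pg ∣ py - 1 := by
  refine ⟨Ig * X, ?_⟩
  rw [pg_eq, C_add]
  unfold py
  have h : (C (1 : GaussianInt) : GaussianInt[X]) = 1 := C_1
  have h2 : (C ig : GaussianInt[X]) = Ig := rfl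
  rw [h, h2]
  linear_combination (-X) * Ig_sq

theorem pD_mod : C pg ∣ pD - 1 := by
  refine ⟨-(1 - Ig) * X - Ig * X ^ 2, ?_⟩
  rw [pg_eq, C_add]
  unfold pD
  have h : (C (1 : GaussianInt) : GaussianInt[X]) = 1 := C_1
  have h2 : (C ig : GaussianInt[X]) = Ig := rfl
  rw [h, h2]
  linear_combination (-X + X ^ 2) * Ig_sq

theorem V_mod (A B : ℕ) : ∃ U : GaussianInt[X], py ^ A * pD ^ B = 1 + C pg * U := by
  have h1 : C pg ∣ py ^ A - 1 := by
    have := sub_dvd_pow_sub_pow py 1 A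
    rw [one_pow] at this
    exact py_mod.trans this
  have h2 : C pg ∣ pD ^ B - 1 := by
    have := sub_dvd_pow_sub_pow pD 1 B
    rw [one_pow] at this
    exact pD_mod.trans this
  obtain ⟨u, hu⟩ := h1
  obtain ⟨v, hv⟩ := h2
  refine ⟨u * pD ^ B + v, ?_⟩
  linear_combination (pD ^ B) * hu + hv

theorem natDegree_py : py.natDegree ≤ 1 := by
  have : py = 1 - C (1 - ig) * X := by
    unfold py Ig
    rw [C_sub, C_1]
  rw [this]
  compute_degree

theorem natDegree_pz : pz.natDegree ≤ 2 := by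
  unfold pz
  compute_degree

theorem natDegree_pa : pa.natDegree ≤ 2 := by
  have : pa = C 2 * py + C (2 * (1 + ig)) * pz := by
    unfold pa Ig
    rw [C_mul, C_add, C_1]
    simp only [map_ofNat]
  rw [this]
  refine (natDegree_add_le _ _).trans (max_le ?_ ?_)
  · exact (natDegree_C_mul_le _ _).trans (natDegree_py.trans (by norm_num))
  · exact (natDegree_C_mul_le _ _).trans natDegree_pz

theorem natDegree_pD : pD.natDegree ≤ 2 := by
  have : pD = 1 - C 2 * X + C (1 - ig) * X ^ 2 := by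
    unfold pD Ig
    rw [C_sub, C_1]
    simp only [map_ofNat]
  rw [this]
  compute_degree

theorem ig_pow (l : ℕ) (h : Even l) : ig ^ (2 * l + 3) = -ig := by
  obtain ⟨j, rfl⟩ := h
  rw [show 2 * (j + j) + 3 = 2 * (2 * j + 1) + 1 by ring, pow_succ, pow_mul, sq, ig_sq,
    pow_succ, pow_mul]
  norm_num

/-- the power of two in the least common multiple -/
theorem lcm_two (m : ℕ) (hm : 0 < m) : ∃ e L' : ℕ, Nat.lcmUpto m = 2 ^ e * L' ∧ Odd L' ∧ e < m := by
  refine ⟨Nat.log 2 m, Nat.lcmUpto m / 2 ^ Nat.log 2 m, ?_, ?_, ?_⟩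
  · rw [← Nat.factorization_lcmUpto m Nat.prime_two]
    exact (Nat.ordProj_mul_ordCompl_eq_self _ 2).symm
  · rw [← Nat.factorization_lcmUpto m Nat.prime_two]
    have h := Nat.not_dvd_ordCompl Nat.prime_two (Nat.lcmUpto_ne_zero m)
    rw [← Nat.not_even_iff_odd, even_iff_two_dvd]
    exact h
  · exact Nat.log_lt_self 2 hm.ne'

theorem two_of (h1 : S_hom) (h2 : S_disc) : S_two := by
  intro n hn k Φ Ψ hsol hdeg hmap
  have hZ : LL (2 * n) Φ = C ((64 ^ n * Nat.lcmUpto (4 * n) : ℕ) : ℤ) *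
      (PP ℤ n - C k * (X ^ 2 - 8) ^ (2 * n)) := by
    apply Polynomial.map_injective (Int.castRingHom ℚ) Int.cast_injective
    rw [LL_map, hmap, LL_C_mul, hsol, Polynomial.map_mul, Polynomial.map_sub, PP_map,
      Polynomial.map_mul, Polynomial.map_pow, Polynomial.map_sub, Polynomial.map_pow,
      Polynomial.map_X, Polynomial.map_ofNat, Polynomial.map_C, Polynomial.map_C]
    simp
  obtain ⟨ΦG, hΦG⟩ : ∃ F, F = Φ.map (Int.castRingHom GaussianInt) := ⟨_, rfl⟩
  have hG : LL (2 * n) ΦG = C ((64 ^ n * Nat.lcmUpto (4 * n) : ℕ) : GaussianInt) *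
      (PP GaussianInt n - C (k : GaussianInt) * (X ^ 2 - 8) ^ (2 * n)) := by
    rw [hΦG, ← LL_map, hZ, Polynomial.map_mul, Polynomial.map_sub, PP_map,
      Polynomial.map_mul, Polynomial.map_pow, Polynomial.map_sub, Polynomial.map_pow,
      Polynomial.map_X, Polynomial.map_ofNat, Polynomial.map_C, Polynomial.map_C]
    simp
  have hdegG : ΦG.natDegree ≤ 8 * n - 1 := by
    rw [hΦG]; exact natDegree_map_le.trans hdeg
  have hevG : ΦG.eval 2 = ((Φ.eval 2 : ℤ) : GaussianInt) := by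
    rw [hΦG]
    have := Polynomial.eval_map_apply (f := Int.castRingHom GaussianInt) (p := Φ) (x := 2)
    simpa using this
  obtain ⟨Z, hZ'⟩ := W_dvd n k (Nat.lcmUpto (4 * n))
  obtain ⟨l, hl⟩ : ∃ l, 4 * n = l + 2 := ⟨4 * n - 2, by omega⟩
  have hl8 : 8 * n - 1 = 2 * l + 3 := by omega
  have hlev : Even l := ⟨2 * n - 1, by omega⟩
  have E := h1 GaussianInt pa py pb pab pd1 (2 * n) (8 * n - 1) ΦG hdegG
  rw [hG, show 8 * n - 1 + 1 = 8 * n by omega, hZ', hl8] at E
  obtain ⟨H, hH⟩ : ∃ H, H = Hom pa py (2 * l + 3) ΦG := ⟨_, rfl⟩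
  rw [← hH] at E
  obtain ⟨W, hW⟩ : ∃ W, W = C ((1024 ^ n * Nat.lcmUpto (4 * n) : ℕ) : GaussianInt) * Z := ⟨_, rfl⟩
  rw [← hW] at E
  have hcast : (2 * ((2 * n : ℕ) : GaussianInt[X]) - 1) = (l : GaussianInt[X]) + 1 := by
    have : ((4 * n : ℕ) : GaussianInt[X]) = ((l + 2 : ℕ) : GaussianInt[X]) := by rw [hl]
    push_cast at this ⊢
    linear_combination this
  rw [hcast] at E
  obtain ⟨N, hN⟩ : ∃ N : GaussianInt[X], N = -2 * Ig * H := ⟨_, rfl⟩
  obtain ⟨V, hV⟩ : ∃ V : GaussianInt[X], V = py ^ (l + 2) * pD ^ (l + 1) := ⟨_, rfl⟩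
  have hN' : derivative N = -2 * Ig * derivative H := by
    rw [hN, derivative_mul, derivative_mul, derivative_neg, d2, dIg]
    ring
  have hV' : derivative V = ((l : GaussianInt[X]) + 2) * py ^ (l + 1) * derivative py *
      pD ^ (l + 1) + py ^ (l + 2) * (((l : GaussianInt[X]) + 1) * pD ^ l * derivative pD) := by
    rw [hV, derivative_mul, derivative_pow_succ, derivative_pow_succ]
    simp only [map_add, map_natCast, map_one, Nat.cast_add, Nat.cast_one]
    ring
  have key : derivative N * V - N * derivative V = py ^ (l + 1) * pD ^ l * derivative py * W := by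
    rw [hN', hV', hN, hV]
    exact core py (derivative py) pD (derivative pD) pa H (derivative H) Ig W l pd2
      (by rw [pb] at E; exact E)
  obtain ⟨e, L', hL, hL'odd, he⟩ := lcm_two (4 * n) (by omega)
  have hc : (1024 ^ n * Nat.lcmUpto (4 * n) : ℕ) = 2 ^ (10 * n + e) * L' := by
    rw [hL, pow_add, pow_mul]; ring
  have hdvd : C (2 ^ (10 * n + e) : GaussianInt) ∣ derivative N * V - N * derivative V := by
    rw [key, hW, hc]
    refine ⟨py ^ (l + 1) * pD ^ l * derivative py * (C (L' : GaussianInt) * Z), ?_⟩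
    push_cast
    rw [C_mul]
    ring
  obtain ⟨U, hU⟩ := V_mod (l + 2) (l + 1)
  rw [← hV] at hU
  have hig4 : ig ^ (l + 2) = 1 := by
    rw [← hl, pow_mul]
    have : ig ^ 4 = 1 := by
      have h3 : ig ^ 4 = (ig * ig) ^ 2 := by ring
      rw [h3, ig_sq]; norm_num
    rw [this, one_pow]
  have hV0 : V.eval 0 * 1 = 1 := by
    rw [hV, eval_mul, eval_pow, eval_pow]
    have h3 : py.eval 0 = 1 := by simp [py]
    have h4 : pD.eval 0 = 1 := by simp [pD]
    rw [h3, h4]; simp
  have hV1 : V.eval 1 * (-ig) = 1 := by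
    rw [hV, eval_mul, eval_pow, eval_pow, py_one, pD_one, hig4, one_mul, ← pow_succ,
      show l + 1 + 1 = l + 2 by ring, neg_pow, hig4]
    rw [Even.neg_one_pow (by rw [← hl]; exact ⟨2 * n, by ring⟩)]
    norm_num
  have hdN : N.natDegree ≤ 2 * (2 * l + 3) := by
    have h3 : N = C (-2 * ig) * H := by
      rw [hN, C_mul, C_neg]
      simp only [map_ofNat]
      rfl
    rw [h3, hH]
    exact (natDegree_C_mul_le _ _).trans (natDegree_Hom pa py _ _ natDegree_pa natDegree_py)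
  have hdV : V.natDegree ≤ (l + 2) * 1 + (l + 1) * 2 := by
    rw [hV]
    refine natDegree_mul_le.trans (Nat.add_le_add ?_ ?_)
    · exact natDegree_pow_le.trans (Nat.mul_le_mul_left _ natDegree_py)
    · exact natDegree_pow_le.trans (Nat.mul_le_mul_left _ natDegree_pD)
  have hsize : N.natDegree + 2 * (10 * n + e) * V.natDegree < 2 ^ (kap n + 1) := by
    have h3 : 1000 * n ^ 2 < 2 ^ (kap n + 1) := Nat.lt_pow_succ_log_self (by norm_num) _
    refine lt_of_le_of_lt ?_ h3
    have h4 : V.natDegree ≤ 12 * n := by omega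
    have h5 : N.natDegree ≤ 16 * n := by omega
    have h6 : 2 * (10 * n + e) ≤ 28 * n := by omega
    calc N.natDegree + 2 * (10 * n + e) * V.natDegree ≤ 16 * n + (28 * n) * (12 * n) :=
          Nat.add_le_add h5 (Nat.mul_le_mul h6 h4)
      _ ≤ 1000 * n ^ 2 := by nlinarith
  obtain ⟨m, hmodd, w, hw⟩ := h2 N V U (10 * n + e) (kap n) 1 (-ig) hU hdvd hV0 hV1 hsize
  have hN0 : N.eval 0 * 1 = -2 * ig * ((Φ.eval 2 : ℤ) : GaussianInt) := by
    rw [hN, eval_mul, eval_mul, Ig_at, hH, Hom_at_zero _ _ (by rw [← hl8]; exact hdegG), hevG]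
    simp
  have hN1 : N.eval 1 * (-ig) = 2 * ig * ((Φ.eval 2 : ℤ) : GaussianInt) := by
    rw [hN, eval_mul, eval_mul, Ig_at, hH, Hom_at_one _ _ (by rw [← hl8]; exact hdegG), hevG,
      ig_pow l hlev]
    simp only [eval_neg, eval_ofNat]
    linear_combination (-2 * ig * ((Φ.eval 2 : ℤ) : GaussianInt)) * ig_sq
  rw [hN0, hN1] at hw
  have hw2 : (((4 * m * 2 ^ kap n : ℕ) : ℤ) * Φ.eval 2 : ℤ) = 2 ^ (10 * n + e) * w.im := by
    have h3 : ((((4 * m * 2 ^ kap n : ℕ) : ℤ) * Φ.eval 2 : ℤ) : GaussianInt) * ig =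
        ((2 ^ (10 * n + e) : ℤ) : GaussianInt) * w := by
      push_cast
      linear_combination hw
    generalize (((4 * m * 2 ^ kap n : ℕ) : ℤ) * Φ.eval 2 : ℤ) = A at h3 ⊢
    generalize (2 ^ (10 * n + e) : ℤ) = B at h3 ⊢
    have h4 := congrArg Zsqrtd.im h3
    simpa [Zsqrtd.im_mul, ig] using h4
  refine ⟨L' * m, hL'odd.mul hmodd, 2 * w.im, ?_⟩
  have hΨ : ((64 ^ n * Nat.lcmUpto (4 * n) : ℕ) : ℚ) * Ψ.eval 2 = ((Φ.eval 2 : ℤ) : ℚ) := by
    have h3 := congrArg (Polynomial.eval 2) hmap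
    rw [eval_mul, eval_C] at h3
    rw [← h3]
    have := Polynomial.eval_map_apply (f := Int.castRingHom ℚ) (p := Φ) (x := 2)
    simpa using this
  have hw3 : ((4 * m * 2 ^ kap n : ℚ)) * ((Φ.eval 2 : ℤ) : ℚ) = 2 ^ (10 * n + e) * (w.im : ℚ) := by
    exact_mod_cast hw2
  rw [hL] at hΨ
  push_cast at hΨ
  unfold qq
  have e1 : (2 : ℚ) ^ (10 * n + e) = 64 ^ n * 16 ^ n * 2 ^ e := by
    rw [pow_add, pow_mul, ← mul_pow]; norm_num
  rw [e1] at hw3
  rw [← hΨ] at hw3
  push_cast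
  have h64 : (64 : ℚ) ^ n ≠ 0 := by positivity
  have h16 : (16 : ℚ) ^ n ≠ 0 := by positivity
  have h2e : (2 : ℚ) ^ e ≠ 0 := by positivity
  have hw4 : (4 * m * 2 ^ kap n : ℚ) * (L' * Ψ.eval 2) = 16 ^ n * (w.im : ℚ) := by
    have h5 : (64 ^ n * 2 ^ e : ℚ) * ((4 * m * 2 ^ kap n : ℚ) * (L' * Ψ.eval 2)) =
        (64 ^ n * 2 ^ e : ℚ) * (16 ^ n * (w.im : ℚ)) := by linear_combination hw3
    exact mul_left_cancel₀ (mul_ne_zero h64 h2e) h5
  field_simp
  linear_combination 2 * hw4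

end Pool.Agent.H726R2.PiA
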